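import Mathlib

set_option autoImplicit false

namespace Pool.Agent.Results.MP_383f58_co.TorusJoin

/-- `Δ` is a simplicial complex with vertex set all of `V`. -/
def IsComplex {V : Type} (Δ : Set (Finset V)) : Prop :=
  (∀ s ∈ Δ, ∀ t : Finset V, t ⊆ s → t ∈ Δ) ∧ ∀ v : V, {v} ∈ Δ

/-- every set of vertices that are pairwise joined by edges is a face -/
def IsFlag {V : Type} [DecidableEq V] (Δ : Set (Finset V)) : Prop :=
  ∀ s : Finset V, (∀ x ∈ s, ∀ y ∈ s, x ≠ y → ({x, y} : Finset V) ∈ Δ) → s ∈ Δ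

/-- pure of dimension `d`, every `(d-1)`-face in exactly two facets -/
def IsPseudomanifold {V : Type} (d : ℕ) (Δ : Set (Finset V)) : Prop :=
  (∀ s ∈ Δ, ∃ t ∈ Δ, s ⊆ t ∧ t.card = d + 1) ∧
    ∀ s ∈ Δ, s.card = d → {t ∈ Δ | s ⊆ t ∧ t.card = d + 1}.ncard = 2

/-- number of `i`-dimensional faces -/
noncomputable def fNum {V : Type} (Δ : Set (Finset V)) (i : ℕ) : ℕ :=
  {s ∈ Δ | s.card = i + 1}.ncard

/-- length of the `i`-th cycle of `J_m(n)` -/
def cycLen (m n : ℕ) (i : Fin m) : ℕ := (n + i) / m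

/-- `J_m(n)`, the join of `m` cycles of lengths `cycLen m n i` -/
def J (m n : ℕ) : Set (Finset (Σ i : Fin m, ZMod (cycLen m n i))) :=
  {s | ∀ i : Fin m, ∃ a : ZMod (cycLen m n i), ∀ x, ⟨i, x⟩ ∈ s → x = a ∨ x = a + 1}

lemma J_le : fNum (J 3 26) 5 ≤ 648 := by
  classical
  let E : (∀ i : Fin 3, ZMod (cycLen 3 26 i)) → Finset (Σ i : Fin 3, ZMod (cycLen 3 26 i)) :=
    fun a => Finset.univ.sigma (fun i => {a i, a i + 1})
  have hc : Nat.card (∀ i : Fin 3, ZMod (cycLen 3 26 i)) = 648 := by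
    rw [Nat.card_pi]
    simp only [Nat.card_zmod]
    decide
  have hfin : Finite (∀ i : Fin 3, ZMod (cycLen 3 26 i)) := Nat.finite_of_card_ne_zero (by omega)
  have hsub : {s ∈ J 3 26 | s.card = 5 + 1} ⊆ E '' Set.univ := by
    rintro s ⟨h1, h2⟩
    choose a ha using h1
    refine ⟨a, trivial, (Finset.eq_of_subset_of_card_le ?_ ?_).symm⟩
    · rintro ⟨i, x⟩ hx
      simpa [E] using ha i x hx
    · rw [h2]
      simp only [E, Finset.card_sigma]
      refine (Finset.sum_le_sum (g := fun _ => 2) fun i _ => Finset.card_le_two).trans ?_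
      simp
  unfold fNum
  refine (Set.ncard_le_ncard hsub (Set.toFinite _)).trans ?_
  refine (Set.ncard_image_le (Set.toFinite _)).trans ?_
  rw [Set.ncard_univ, hc]

/-- the circulant graph on 13 vertices with connection set ±1, ±3, ±4 -/
def adj (x y : Fin 13) : Bool :=
  let d := (x - y).val
  d == 1 || d == 3 || d == 4 || d == 9 || d == 10 || d == 12

def Cl (s : Finset (Fin 13)) : Prop := ∀ x ∈ s, ∀ y ∈ s, x ≠ y → adj x y = true

instance : DecidablePred Cl := fun s => by unfold Cl; infer_instance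

def tri (p : Fin 13 × Bool) : Finset (Fin 13) :=
  {p.1, p.1 + (if p.2 then 1 else 3), p.1 + 4}

lemma tri_inj : Function.Injective tri := by decide +kernel
lemma tri_cl : ∀ p, Cl (tri p) ∧ (tri p).card = 3 := by decide +kernel
lemma no4 : ∀ a b c d : Fin 13, adj a b = true → adj a c = true → adj b c = true →
    adj a d = true → adj b d = true → adj c d = false := by decide +kernel
lemma ext3 : ∀ a b : Fin 13, a = b ∨ adj a b = true → ∃ p, a ∈ tri p ∧ b ∈ tri p := by
  decide +kernel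
lemma two : ∀ a b : Fin 13, adj a b = true → ∃ c d, c ≠ d ∧ c ≠ a ∧ c ≠ b ∧ d ≠ a ∧ d ≠ b ∧
    Cl {c, a, b} ∧ Cl {d, a, b} ∧ ∀ e, adj e a = true → adj e b = true → e = c ∨ e = d := by
  decide +kernel

lemma cl_mono {s t : Finset (Fin 13)} (h : Cl s) (hts : t ⊆ s) : Cl t :=
  fun x hx y hy => h x (hts hx) y (hts hy)

lemma cl_card {s : Finset (Fin 13)} (h : Cl s) : s.card ≤ 3 := by
  by_contra hc
  obtain ⟨a, b, c, d, ha, hb, hc, hd, h1, h2, h3, h4, h5, h6⟩ :=
    Finset.three_lt_card_iff.mp (not_le.mp hc)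
  have := no4 a b c d (h a ha b hb h1) (h a ha c hc h2) (h b hb c hc h4) (h a ha d hd h3)
    (h b hb d hd h5)
  rw [h c hc d hd h6] at this
  exact absurd this (by simp)

lemma cl_ext {s : Finset (Fin 13)} (h : Cl s) : ∃ t, Cl t ∧ s ⊆ t ∧ t.card = 3 := by
  have h3 := cl_card h
  by_cases h4 : s.card = 3
  · exact ⟨s, h, subset_rfl, h4⟩
  have : ∃ a b, (a = b ∨ adj a b = true) ∧ s ⊆ {a, b} := by
    rcases (by omega : s.card = 0 ∨ s.card = 1 ∨ s.card = 2) with h0 | h0 | h0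
    · exact ⟨0, 0, Or.inl rfl, by simp [Finset.card_eq_zero.mp h0]⟩
    · obtain ⟨a, rfl⟩ := Finset.card_eq_one.mp h0
      exact ⟨a, a, Or.inl rfl, by simp⟩
    · obtain ⟨a, b, hab, rfl⟩ := Finset.card_eq_two.mp h0
      exact ⟨a, b, Or.inr (h a (by simp) b (by simp) hab), subset_rfl⟩
  obtain ⟨a, b, h5, h6⟩ := this
  obtain ⟨p, h7, h8⟩ := ext3 a b h5
  refine ⟨tri p, (tri_cl p).1, h6.trans ?_, (tri_cl p).2⟩
  intro x hx
  simp only [Finset.mem_insert, Finset.mem_singleton] at hx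
  rcases hx with rfl | rfl <;> assumption

lemma cl_two {s : Finset (Fin 13)} (h : Cl s) (h2 : s.card = 2) :
    ∃ u w, u ≠ w ∧ ∀ t, (Cl t ∧ s ⊆ t ∧ t.card = 3) ↔ t = u ∨ t = w := by
  obtain ⟨a, b, hab, rfl⟩ := Finset.card_eq_two.mp h2
  obtain ⟨c, d, k1, k2, k3, k4, k5, k6, k7, k8⟩ := two a b (h a (by simp) b (by simp) hab)
  have c3 : ∀ e, e ≠ a → e ≠ b → ({e, a, b} : Finset (Fin 13)).card = 3 := fun e h1 h2 =>
    Finset.card_eq_three.mpr ⟨e, a, b, h1, h2, hab, rfl⟩
  refine ⟨{c, a, b}, {d, a, b}, ?_, fun t => ⟨?_, ?_⟩⟩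
  · intro h
    have : c ∈ ({d, a, b} : Finset (Fin 13)) := by rw [← h]; simp
    simp [k1, k2, k3] at this
  · rintro ⟨t1, t2, t3⟩
    obtain ⟨e, he, he2⟩ := Finset.exists_mem_notMem_of_card_lt_card
      (s := ({a, b} : Finset (Fin 13))) (t := t) (by omega)
    simp only [Finset.mem_insert, Finset.mem_singleton, not_or] at he2
    have ha : a ∈ t := t2 (by simp)
    have hb : b ∈ t := t2 (by simp)
    have e1 : ({e, a, b} : Finset (Fin 13)) = t := by
      apply Finset.eq_of_subset_of_card_le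
      · intro x hx
        simp only [Finset.mem_insert, Finset.mem_singleton] at hx
        rcases hx with rfl | rfl | rfl <;> assumption
      · rw [c3 e he2.1 he2.2, t3]
    rcases k8 e (t1 e he a ha he2.1) (t1 e he b hb he2.2) with rfl | rfl
    · exact Or.inl e1.symm
    · exact Or.inr e1.symm
  · rintro (rfl | rfl)
    · exact ⟨k6, Finset.subset_insert _ _, c3 c k2 k3⟩
    · exact ⟨k7, Finset.subset_insert _ _, c3 d k4 k5⟩

/-- join of two 13-vertex flag tori -/
def D : Set (Finset (Fin 13 ⊕ Fin 13)) := {s | Cl s.toLeft ∧ Cl s.toRight}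

lemma D_ge : 676 ≤ fNum D 5 := by
  let E : (Fin 13 × Bool) × (Fin 13 × Bool) → Finset (Fin 13 ⊕ Fin 13) :=
    fun p => (tri p.1).disjSum (tri p.2)
  have hE : Function.Injective E := by
    intro p q h
    have := Finset.disjSum_inj.mp h
    exact Prod.ext (tri_inj this.1) (tri_inj this.2)
  have hsub : E '' Set.univ ⊆ {s ∈ D | s.card = 5 + 1} := by
    rintro s ⟨p, -, rfl⟩
    refine ⟨⟨?_, ?_⟩, ?_⟩
    · simpa [E] using (tri_cl p.1).1
    · simpa [E] using (tri_cl p.2).1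
    · simp [E, (tri_cl _).2]
  have := Set.ncard_le_ncard hsub (Set.toFinite _)
  rw [Set.ncard_image_of_injective _ hE, Set.ncard_univ] at this
  simpa [fNum] using this

theorem result :
    ∃ (m n : ℕ) (V : Type) (_ : Fintype V) (_ : DecidableEq V) (Δ : Set (Finset V)) (i : ℕ),
      1 ≤ m ∧ 3 * m ≤ n ∧ Fintype.card V = n ∧ IsComplex Δ ∧ IsFlag Δ ∧
      IsPseudomanifold (2 * m - 1) Δ ∧ 1 ≤ i ∧ i ≤ 2 * m - 1 ∧ fNum (J m n) i < fNum Δ i := by
  refine ⟨3, 26, Fin 13 ⊕ Fin 13, inferInstance, inferInstance, D, 5, by norm_num, by norm_num,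
    by simp, ⟨?_, ?_⟩, ?_, ⟨?_, ?_⟩, by norm_num, by norm_num,
    by have := J_le; have := D_ge; omega⟩
  · rintro s ⟨h1, h2⟩ t ht
    exact ⟨cl_mono h1 (Finset.toLeft_subset_toLeft ht), cl_mono h2 (Finset.toRight_subset_toRight ht)⟩
  · intro v
    constructor
    · intro x hx y hy hxy
      simp only [Finset.mem_toLeft, Finset.mem_singleton] at hx hy
      exact absurd (Sum.inl_injective (hx.trans hy.symm)) hxy
    · intro x hx y hy hxy
      simp only [Finset.mem_toRight, Finset.mem_singleton] at hx hy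
      exact absurd (Sum.inr_injective (hx.trans hy.symm)) hxy
  · intro s hs
    constructor
    · intro x hx y hy hxy
      simp only [Finset.mem_toLeft] at hx hy
      exact (hs _ hx _ hy (by simpa using hxy)).1 x (by simp) y (by simp) hxy
    · intro x hx y hy hxy
      simp only [Finset.mem_toRight] at hx hy
      exact (hs _ hx _ hy (by simpa using hxy)).2 x (by simp) y (by simp) hxy
  · rintro s ⟨h1, h2⟩
    obtain ⟨t1, a1, a2, a3⟩ := cl_ext h1
    obtain ⟨t2, b1, b2, b3⟩ := cl_ext h2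
    refine ⟨t1.disjSum t2, ⟨by simpa using a1, by simpa using b1⟩, ?_, by simp [a3, b3]⟩
    exact Finset.subset_disjSum.mpr ⟨a2, b2⟩
  · rintro s ⟨h1, h2⟩ hc
    have c1 := cl_card h1
    have c2 := cl_card h2
    have c3 := Finset.card_toLeft_add_card_toRight (u := s)
    have key : ∀ t : Finset (Fin 13 ⊕ Fin 13), (t ∈ D ∧ s ⊆ t ∧ t.card = 2 * 3 - 1 + 1) ↔
        ((Cl t.toLeft ∧ s.toLeft ⊆ t.toLeft ∧ t.toLeft.card = 3) ∧
          (Cl t.toRight ∧ s.toRight ⊆ t.toRight ∧ t.toRight.card = 3)) := by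
      intro t
      have d3 := Finset.card_toLeft_add_card_toRight (u := t)
      constructor
      · rintro ⟨⟨t1, t2⟩, t3, t4⟩
        have d1 := cl_card t1
        have d2 := cl_card t2
        exact ⟨⟨t1, Finset.toLeft_subset_toLeft t3, by omega⟩,
          ⟨t2, Finset.toRight_subset_toRight t3, by omega⟩⟩
      · rintro ⟨⟨t1, t2, t3⟩, ⟨t4, t5, t6⟩⟩
        refine ⟨⟨t1, t4⟩, ?_, by omega⟩
        rw [← Finset.toLeft_disjSum_toRight (u := t)]
        exact Finset.subset_disjSum.mpr ⟨t2, t5⟩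
    have full : ∀ r : Finset (Fin 13), Cl r → r.card = 3 → ∀ t,
        (Cl t ∧ r ⊆ t ∧ t.card = 3) ↔ t = r := by
      intro r r1 r2 t
      constructor
      · rintro ⟨-, t2, t3⟩
        exact (Finset.eq_of_subset_of_card_le t2 (by omega)).symm
      · rintro rfl
        exact ⟨r1, subset_rfl, r2⟩
    rw [Set.ncard_eq_two]
    by_cases hl : s.toLeft.card = 2
    · obtain ⟨u, w, huw, h⟩ := cl_two h1 hl
      refine ⟨u.disjSum s.toRight, w.disjSum s.toRight,
        fun e => huw (Finset.disjSum_inj.mp e).1, ?_⟩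
      ext t
      rw [Set.mem_ofPred_eq, key, h, full _ h2 (by omega), Set.mem_insert_iff,
        Set.mem_singleton_iff, Finset.eq_disjSum_iff, Finset.eq_disjSum_iff, or_and_right]
    · obtain ⟨u, w, huw, h⟩ := cl_two h2 (by omega)
      refine ⟨s.toLeft.disjSum u, s.toLeft.disjSum w,
        fun e => huw (Finset.disjSum_inj.mp e).2, ?_⟩
      ext t
      rw [Set.mem_ofPred_eq, key, h, full _ h1 (by omega), Set.mem_insert_iff,
        Set.mem_singleton_iff, Finset.eq_disjSum_iff, Finset.eq_disjSum_iff, and_or_left]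

end Pool.Agent.Results.MP_383f58_co.TorusJoin
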